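import Pool.Agent.W792.GK.Stm

/-!
Project GK, task APPROX: real trigonometric polynomials are dense.
-/

set_option autoImplicit false

open Pool.Agent.W792.GK

namespace Pool.Agent.W462.GK

/-- reflected and conjugated coefficients -/
noncomputable def refl {ι : Type} (c : (ι → ℤ) →₀ ℂ) : (ι → ℤ) →₀ ℂ :=
  (Finsupp.equivMapDomain (Equiv.neg (ι → ℤ)) c).mapRange (starRingEnd ℂ) (map_zero _)

theorem refl_apply {ι : Type} (c : (ι → ℤ) →₀ ℂ) (n : ι → ℤ) :
    refl c n = (starRingEnd ℂ) (c (-n)) := by
  simp [refl, Finsupp.equivMapDomain_apply]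

theorem refl_add {ι : Type} (c c' : (ι → ℤ) →₀ ℂ) : refl (c + c') = refl c + refl c' := by
  ext n
  simp [refl_apply]

theorem trig_lin {ι : Type} [Fintype ι] (h : (ι → ℤ) →₀ ℂ) :
    trig h = Finsupp.linearCombination ℂ (fun n => UnitAddTorus.mFourier n) h := rfl

theorem trig_add {ι : Type} [Fintype ι] (h h' : (ι → ℤ) →₀ ℂ) :
    trig (h + h') = trig h + trig h' := by
  rw [trig_lin, trig_lin, trig_lin, map_add]

theorem trig_smul {ι : Type} [Fintype ι] (z : ℂ) (h : (ι → ℤ) →₀ ℂ) :
    trig (z • h) = z • trig h := by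
  rw [trig_lin, trig_lin, map_smul]

theorem trig_single {ι : Type} [Fintype ι] (n : ι → ℤ) (z : ℂ) :
    trig (Finsupp.single n z) = z • UnitAddTorus.mFourier n := by
  rw [trig_lin, Finsupp.linearCombination_single]

theorem trig_refl {ι : Type} [Fintype ι] (c : (ι → ℤ) →₀ ℂ) (k : UnitAddTorus ι) :
    trig (refl c) k = (starRingEnd ℂ) (trig c k) := by
  induction c using Finsupp.induction_linear with
  | zero =>
    have e : refl (0 : (ι → ℤ) →₀ ℂ) = 0 := by ext n; simp [refl_apply]
    rw [e]
    have e2 : trig (0 : (ι → ℤ) →₀ ℂ) = 0 := by rw [trig_lin, map_zero]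
    rw [e2]; simp
  | add f g hf hg =>
    rw [refl_add, trig_add, trig_add, ContinuousMap.add_apply, ContinuousMap.add_apply, hf, hg,
      map_add]
  | single n z =>
    have e : refl (Finsupp.single n z) = Finsupp.single (-n) ((starRingEnd ℂ) z) := by
      ext m
      rw [refl_apply]
      classical
      rw [Finsupp.single_apply, Finsupp.single_apply]
      by_cases h : n = -m
      · rw [if_pos h, if_pos (by rw [h, neg_neg])]
      · rw [if_neg h, if_neg (fun h' => h (by rw [← h', neg_neg])), map_zero]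
    rw [e, trig_single, trig_single, ContinuousMap.smul_apply, ContinuousMap.smul_apply,
      UnitAddTorus.mFourier_neg, smul_eq_mul, smul_eq_mul, map_mul]

theorem main : S_APPROX := by
  intro ι _ f ε hε
  let F : C(UnitAddTorus ι, ℂ) := ⟨fun k => (f k : ℂ), by fun_prop⟩
  have hF : F ∈ (Submodule.span ℂ (Set.range (UnitAddTorus.mFourier (d := ι)))).topologicalClosure := by
    rw [UnitAddTorus.span_mFourier_closure_eq_top]; trivial
  rw [← SetLike.mem_coe, Submodule.topologicalClosure_coe, Metric.mem_closure_iff] at hF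
  obtain ⟨g, hg, hgF⟩ := hF ε hε
  rw [SetLike.mem_coe, Finsupp.mem_span_range_iff_exists_finsupp] at hg
  obtain ⟨c, hc⟩ := hg
  have hc' : trig c = g := hc
  refine ⟨(1 / 2 : ℂ) • (c + refl c), ⟨fun k => (g k).re, by fun_prop⟩, ?_, ?_, ?_⟩
  · intro n
    simp only [Finsupp.smul_apply, Finsupp.add_apply, refl_apply, neg_neg, smul_eq_mul, map_mul,
      map_add, Complex.conj_conj]
    have : (starRingEnd ℂ) (1 / 2 : ℂ) = 1 / 2 := by
      rw [map_div₀, map_one, map_ofNat]
    rw [this]; ring
  · intro k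
    show (((g k).re : ℝ) : ℂ) = _
    rw [trig_smul, trig_add, ContinuousMap.smul_apply, ContinuousMap.add_apply, trig_refl, hc',
      Complex.re_eq_add_conj, smul_eq_mul]
    ring
  · rw [ContinuousMap.norm_le _ hε.le]
    intro k
    have h1 : ‖F k - g k‖ ≤ ε := by
      rw [← ContinuousMap.sub_apply]
      refine (ContinuousMap.norm_coe_le_norm _ k).trans ?_
      rw [← dist_eq_norm]
      exact hgF.le
    have h2 : (F k - g k).re = f k - (g k).re := by
      rw [Complex.sub_re]
      rfl
    have h3 := (Complex.abs_re_le_norm (F k - g k)).trans h1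
    rw [h2] at h3
    show ‖(g k).re - f k‖ ≤ ε
    rw [Real.norm_eq_abs, abs_sub_comm]
    exact h3

end Pool.Agent.W462.GK
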